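import Mathlib

/-!
# The rate `t^(-1/2)` is optimal in the abstract setting

We exhibit Hilbert spaces `H`, `Y`, a nonnegative self-adjoint operator `A` on `H` with compact
resolvent and a bounded operator `B : Y → H` such that the Schrodinger system `∂ₜu + iAu = 0`,
`y = B* u` is observable (in time `π`), while the damped wave system `∂ₜ²u + Au + BB*∂ₜu = 0` is not
stable at any rate `f(t)` with `√t f(t) → 0`; in particular not at rate `t^(-α)` for any `α > 1/2`.
-/

open MeasureTheory Filter Topology Set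
open scoped InnerProductSpace ENNReal NNReal

namespace Pool.Agent.Results.MP_4ccfbf_an.HalfRateOptimal

noncomputable section

section defs

variable {H Y : Type} [NormedAddCommGroup H] [InnerProductSpace ℂ H] [CompleteSpace H]
  [NormedAddCommGroup Y] [InnerProductSpace ℂ Y] [CompleteSpace Y]

/-- The (unbounded) operator `T` is nonnegative: `(x, T x) ≥ 0` for all `x` in its domain. -/
def IsNonneg (T : H →ₗ.[ℂ] H) : Prop :=
  ∀ x : T.domain, 0 ≤ (⟪(x : H), T x⟫_ℂ).re ∧ (⟪(x : H), T x⟫_ℂ).im = 0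

/-- `A + 1` is boundedly invertible and its inverse is a compact operator. -/
def HasCompactResolvent (A : H →ₗ.[ℂ] H) : Prop :=
  ∃ R : H →L[ℂ] H, IsCompactOperator R ∧
    (∀ y, ∃ h : R y ∈ A.domain, A ⟨R y, h⟩ + R y = y) ∧ ∀ x : A.domain, R (A x + x) = x

/-- `S = A^(1/2)`: the operator `S` is self-adjoint and nonnegative, and `S² = A`, domains
included: `x ∈ D(A)` and `A x = y` if and only if `x ∈ D(S)`, `S x ∈ D(S)` and `S (S x) = y`. -/
structure IsSqrt (S A : H →ₗ.[ℂ] H) : Prop where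
  selfAdjoint : IsSelfAdjoint S
  nonneg : IsNonneg S
  sq : ∀ x y, (∃ h : x ∈ A.domain, A ⟨x, h⟩ = y) ↔
    ∃ (h : x ∈ S.domain) (h' : S ⟨x, h⟩ ∈ S.domain), S ⟨S ⟨x, h⟩, h'⟩ = y

/-- `u : ℝ → H` is a solution of the Schrodinger equation `∂ₜu + iAu = 0`: it is continuous with
values in `H` and satisfies the equation tested against every vector `w` of the domain of `A`
(so that all mild solutions `exp(-itA) u(0)` with `u(0) ∈ H` are included). -/
def IsSchrodingerSol (A : H →ₗ.[ℂ] H) (u : ℝ → H) : Prop :=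
  Continuous u ∧ ∀ (w : A.domain) (t : ℝ),
    HasDerivAt (fun s => ⟪(w : H), u s⟫_ℂ) (-Complex.I * ⟪A w, u t⟫_ℂ) t

/-- The Schrodinger system `∂ₜu + iAu = 0`, `y = B* u` is observable in time `T`. -/
def ObservableInTime (A : H →ₗ.[ℂ] H) (B : Y →L[ℂ] H) (T : ℝ) : Prop :=
  ∃ K > 0, ∀ u : ℝ → H, IsSchrodingerSol A u →
    ‖u 0‖ ^ 2 ≤ K * ∫ t in (0 : ℝ)..T, ‖(ContinuousLinearMap.adjoint B) (u t)‖ ^ 2

open Classical in
/-- The value of a partially defined operator, extended by `0` outside its domain (it is only used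
for vectors which are required to lie in the domain). -/
def val (T : H →ₗ.[ℂ] H) (x : H) : H := if h : x ∈ T.domain then T ⟨x, h⟩ else 0

/-- `(u, v)`, `v = ∂ₜu`, is a classical solution on `[0, ∞)` of the damped wave system
`∂ₜ²u + Au + BB*∂ₜu = 0`, where `S = A^(1/2)`: `U = (u, v)` takes its values in
`D(𝒜) = D(A) × D(A^(1/2))`, it is of class `C¹` with values in `D(A^(1/2)) × H` and continuous with
values in `D(𝒜)`, and `U' = 𝒜 U` with `𝒜 (u, v) = (v, -Au - BB*v)`. -/
structure IsClassicalSol (A S : H →ₗ.[ℂ] H) (B : Y →L[ℂ] H) (u v : ℝ → H) : Prop where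
  mem : ∀ t, 0 ≤ t → u t ∈ A.domain ∧ u t ∈ S.domain ∧ v t ∈ S.domain
  deriv_u : ∀ t, 0 ≤ t → HasDerivWithinAt u (v t) (Ici 0) t
  deriv_Su : ∀ t, 0 ≤ t → HasDerivWithinAt (fun s => val S (u s)) (val S (v t)) (Ici 0) t
  deriv_v : ∀ t, 0 ≤ t → HasDerivWithinAt v
    (-val A (u t) - B ((ContinuousLinearMap.adjoint B) (v t))) (Ici 0) t
  cont_Sv : ContinuousOn (fun t => val S (v t)) (Ici 0)
  cont_Au : ContinuousOn (fun t => val A (u t)) (Ici 0)

/-- The square of the norm of `D(A^(1/2)) × H`: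
`‖(A + 1)^(1/2) u‖² + ‖v‖² = ‖A^(1/2) u‖² + ‖u‖² + ‖v‖²`. -/
def normSq (S : H →ₗ.[ℂ] H) (u v : H) : ℝ := ‖val S u‖ ^ 2 + ‖u‖ ^ 2 + ‖v‖ ^ 2

/-- The square of the graph norm of `𝒜`: `‖U‖² + ‖𝒜 U‖²`, `𝒜 (u, v) = (v, -Au - BB*v)`. -/
def graphNormSq (A S : H →ₗ.[ℂ] H) (B : Y →L[ℂ] H) (u v : H) : ℝ :=
  normSq S u v + normSq S v (-val A u - B ((ContinuousLinearMap.adjoint B) v))

/-- The damped wave system is stable at rate `f`: for some constant `C`, for all classical
solutions `U = (u, v)` and all `t > 0`, `|U(t)| ≤ C f(t) ‖U(0)‖_{D(𝒜)}`, where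
`|(u, v)|² = ‖A^(1/2) u‖² + ‖v‖²`. -/
def StableAtRate (A S : H →ₗ.[ℂ] H) (B : Y →L[ℂ] H) (f : ℝ → ℝ) : Prop :=
  ∃ C > 0, ∀ u v : ℝ → H, IsClassicalSol A S B u v → ∀ t > 0,
    √(‖val S (u t)‖ ^ 2 + ‖v t‖ ^ 2) ≤ C * f t * √(graphNormSq A S B (u 0) (v 0))

omit [CompleteSpace H] in
lemma val_of_mem {T : H →ₗ.[ℂ] H} {x : H} (h : x ∈ T.domain) : val T x = T ⟨x, h⟩ := by
  unfold val; rw [dif_pos h]

end defs

section mult

variable {ι : Type}

/-- `ℓ²(ι)`. -/
abbrev L2 (ι : Type) := lp (fun _ : ι => ℂ) 2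

lemma norm_sq_eq (x : L2 ι) : ‖x‖ ^ 2 = ∑' i, ‖x i‖ ^ 2 := by
  have := lp.norm_rpow_eq_tsum (p := 2) (by norm_num) x
  simpa using this

lemma summable_sq (x : L2 ι) : Summable fun i => ‖x i‖ ^ 2 := by
  have := (lp.memℓp x).summable (by norm_num)
  simpa using this

lemma memℓp_two {f : ι → ℂ} : Memℓp f 2 ↔ Summable fun i => ‖f i‖ ^ 2 := by
  rw [memℓp_gen_iff (by norm_num)]
  simp

/-- The domain of the operator of multiplication by `a`. -/
def multDom (a : ι → ℝ) : Submodule ℂ (L2 ι) where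
  carrier := {x | Memℓp (fun i => (a i : ℂ) * x i) 2}
  zero_mem' := by
    show Memℓp (fun i => (a i : ℂ) * (0 : L2 ι) i) 2
    have : (fun i => (a i : ℂ) * (0 : L2 ι) i) = fun _ : ι => (0:ℂ) := by
      funext i; simp
    rw [this]; exact zero_mem_ℓp'
  add_mem' := by
    intro x y hx hy
    have h := Memℓp.add hx hy
    show Memℓp (fun i => (a i : ℂ) * (x + y : L2 ι) i) 2
    convert h using 1
    funext i
    simp [mul_add]
  smul_mem' := by
    intro c x hx
    have h := Memℓp.const_smul hx c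
    show Memℓp (fun i => (a i : ℂ) * (c • x : L2 ι) i) 2
    convert h using 1
    funext i
    simp; ring

/-- The operator of multiplication by the real sequence `a`, with its maximal domain. -/
def mult (a : ι → ℝ) : L2 ι →ₗ.[ℂ] L2 ι where
  domain := multDom a
  toFun :=
    { toFun := fun x => ⟨fun i => (a i : ℂ) * (x : L2 ι) i, x.2⟩
      map_add' := by
        intro x y
        apply Subtype.ext
        funext i
        show (a i : ℂ) * ((x : L2 ι) + (y : L2 ι) : L2 ι) i = _
        simp [mul_add]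
        try rfl
      map_smul' := by
        intro c x
        apply Subtype.ext
        funext i
        show (a i : ℂ) * (c • (x : L2 ι) : L2 ι) i = _
        simp; ring }

lemma mem_mult_iff {a : ι → ℝ} {x : L2 ι} :
    x ∈ (mult a).domain ↔ Memℓp (fun i => (a i : ℂ) * x i) 2 := Iff.rfl

lemma mem_mult_iff' {a : ι → ℝ} {x : L2 ι} :
    x ∈ (mult a).domain ↔ Summable fun i => a i ^ 2 * ‖x i‖ ^ 2 := by
  rw [mem_mult_iff, memℓp_two]
  simp [mul_pow]

@[simp] lemma mult_apply {a : ι → ℝ} (x : (mult a).domain) (i : ι) :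
    (mult a x) i = (a i : ℂ) * (x : L2 ι) i := rfl

lemma mult_symm (a : ι → ℝ) (x y : (mult a).domain) :
    ⟪mult a x, (y : L2 ι)⟫_ℂ = ⟪(x : L2 ι), mult a y⟫_ℂ := by
  rw [lp.inner_eq_tsum, lp.inner_eq_tsum]
  congr 1
  funext i
  simp
  ring

lemma mult_nonneg (a : ι → ℝ) (ha : ∀ i, 0 ≤ a i) : IsNonneg (mult a) := by
  intro x
  have h := lp.hasSum_inner (𝕜 := ℂ) (x : L2 ι) (mult a x)
  have e : ∀ i, ⟪(x : L2 ι) i, (mult a x) i⟫_ℂ = ((a i * ‖(x : L2 ι) i‖ ^ 2 : ℝ) : ℂ) := by
    intro i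
    rw [mult_apply]
    simp only [RCLike.inner_apply, Complex.ofReal_mul, Complex.ofReal_pow]
    rw [mul_assoc, Complex.mul_conj, Complex.normSq_eq_norm_sq]
    simp
  simp only [e] at h
  have hre := Complex.hasSum_re h
  have him := Complex.hasSum_im h
  simp only [Complex.ofReal_re, Complex.ofReal_im] at hre him
  refine ⟨hre.nonneg fun i => mul_nonneg (ha i) (sq_nonneg _), ?_⟩
  exact him.unique hasSum_zero

variable [DecidableEq ι]

lemma single_mem (a : ι → ℝ) (i : ι) (c : ℂ) : lp.single 2 i c ∈ (mult a).domain := by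
  rw [mem_mult_iff]
  have : (fun j => (a j : ℂ) * (lp.single 2 i c : L2 ι) j) =
      (lp.single 2 i ((a i : ℂ) * c) : L2 ι) := by
    funext j
    by_cases h : j = i
    · subst h; simp
    · simp [h]
  rw [this]
  exact lp.memℓp _

lemma mult_single (a : ι → ℝ) (i : ι) (c : ℂ) :
    mult a ⟨lp.single 2 i c, single_mem a i c⟩ = lp.single 2 i ((a i : ℂ) * c) := by
  apply lp.ext
  funext j
  rw [mult_apply]
  by_cases hj : j = i
  · subst hj; simp
  · simp [hj]

lemma dense_dom (a : ι → ℝ) : Dense ((mult a).domain : Set (L2 ι)) := by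
  intro x
  have h := lp.hasSum_single (p := 2) (by norm_num) x
  refine mem_closure_of_tendsto h (Eventually.of_forall fun s => ?_)
  exact Submodule.sum_mem _ fun i _ => single_mem a i _

lemma mult_selfAdjoint (a : ι → ℝ) : IsSelfAdjoint (mult a) := by
  rw [LinearPMap.isSelfAdjoint_def]
  have key : ∀ (y : L2 ι) (hy : y ∈ (mult a).adjoint.domain),
      ∀ i, ((mult a).adjoint ⟨y, hy⟩ : L2 ι) i = (a i : ℂ) * y i := by
    intro y hy i
    have h := LinearPMap.adjoint_isFormalAdjoint (dense_dom a) ⟨y, hy⟩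
      ⟨lp.single 2 i (1:ℂ), single_mem a i 1⟩
    rw [mult_single] at h
    simp only at h
    rw [lp.inner_single_right, lp.inner_single_right] at h
    simp at h
    have h2 := congrArg (starRingEnd ℂ) h
    simp at h2
    rw [h2]
  have hdom : ∀ (y : L2 ι) (hy : y ∈ (mult a).adjoint.domain), y ∈ (mult a).domain := by
    intro y hy
    rw [mem_mult_iff]
    have : (fun i => (a i : ℂ) * y i) = ((mult a).adjoint ⟨y, hy⟩ : L2 ι) := by
      funext i; exact (key y hy i).symm
    rw [this]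
    exact lp.memℓp _
  apply le_antisymm
  · refine ⟨fun y hy => hdom y hy, ?_⟩
    intro x y hxy
    apply lp.ext
    funext i
    rw [mult_apply, ← hxy]
    exact key x.1 x.2 i
  · apply LinearPMap.IsFormalAdjoint.le_adjoint (dense_dom a)
    intro x y
    exact mult_symm a x y

omit [DecidableEq ι] in
lemma mult_isSqrt_sq (a : ι → ℝ) (ha : ∀ i, 0 ≤ a i) (x y : L2 ι) :
    (∃ h : x ∈ (mult a).domain, mult a ⟨x, h⟩ = y) ↔
    ∃ (h : x ∈ (mult fun i => √(a i)).domain)
      (h' : mult (fun i => √(a i)) ⟨x, h⟩ ∈ (mult fun i => √(a i)).domain),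
      mult (fun i => √(a i)) ⟨mult (fun i => √(a i)) ⟨x, h⟩, h'⟩ = y := by
  have hsq : ∀ i, ((√(a i) : ℝ) : ℂ) * ((√(a i) : ℝ) : ℂ) = (a i : ℂ) := by
    intro i
    rw [← Complex.ofReal_mul, Real.mul_self_sqrt (ha i)]
  constructor
  · rintro ⟨h, rfl⟩
    have h1 : x ∈ (mult fun i => √(a i)).domain := by
      rw [mem_mult_iff'] at h ⊢
      refine Summable.of_nonneg_of_le (fun i => by positivity) (fun i => ?_)
        (h.add (summable_sq x))
      rw [Real.sq_sqrt (ha i)]
      have : a i ≤ a i ^ 2 + 1 := by nlinarith [sq_nonneg (a i - 1), sq_nonneg (a i)]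
      nlinarith [sq_nonneg ‖x i‖]
    have h2 : mult (fun i => √(a i)) ⟨x, h1⟩ ∈ (mult fun i => √(a i)).domain := by
      rw [mem_mult_iff] at h ⊢
      convert h using 1
      funext i
      rw [mult_apply, ← mul_assoc, hsq]
    refine ⟨h1, h2, ?_⟩
    apply lp.ext
    funext i
    rw [mult_apply, mult_apply, mult_apply, ← mul_assoc, hsq]
  · rintro ⟨h1, h2, rfl⟩
    have h : x ∈ (mult a).domain := by
      rw [mem_mult_iff] at h2 ⊢
      convert h2 using 1
      funext i
      rw [mult_apply, ← mul_assoc, hsq]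
    refine ⟨h, ?_⟩
    apply lp.ext
    funext i
    rw [mult_apply, mult_apply, mult_apply, ← mul_assoc, hsq]

/-- The bounded operator of multiplication by a bounded sequence. -/
def bmult (c : ι → ℝ) (C : ℝ) (hc : ∀ i, |c i| ≤ C) : L2 ι →L[ℂ] L2 ι :=
  LinearMap.mkContinuous
    { toFun := fun x => ⟨fun i => (c i : ℂ) * x i, by
        show Memℓp (fun i => (c i : ℂ) * x i) 2
        rw [memℓp_two]
        refine Summable.of_nonneg_of_le (fun i => by positivity) (fun i => ?_)
          ((summable_sq x).mul_left (C ^ 2))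
        rw [norm_mul, mul_pow]
        gcongr
        simpa using hc i⟩
      map_add' := by
        intro x y
        apply Subtype.ext
        funext i
        show (c i : ℂ) * (x + y : L2 ι) i = _
        simp [mul_add]
        try rfl
      map_smul' := by
        intro k x
        apply Subtype.ext
        funext i
        show (c i : ℂ) * (k • x : L2 ι) i = _
        simp; ring } C (by
    intro x
    by_cases hne : Nonempty ι
    · have hC : 0 ≤ C := le_trans (abs_nonneg _) (hc hne.some)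
      rw [← Real.sqrt_sq (norm_nonneg _), ← Real.sqrt_sq (mul_nonneg hC (norm_nonneg x))]
      apply Real.sqrt_le_sqrt
      rw [norm_sq_eq, mul_pow, norm_sq_eq x, ← tsum_mul_left]
      refine Summable.tsum_le_tsum (fun i => ?_) (summable_sq _) ((summable_sq x).mul_left _)
      show ‖(c i : ℂ) * x i‖ ^ 2 ≤ _
      rw [norm_mul, mul_pow]
      gcongr
      simpa using hc i
    · have hem : IsEmpty ι := not_nonempty_iff.1 hne
      rw [lp.eq_zero' x]
      refine le_of_eq ?_
      rw [map_zero, norm_zero, mul_zero])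

omit [DecidableEq ι] in
@[simp] lemma bmult_apply (c : ι → ℝ) (C : ℝ) (hc : ∀ i, |c i| ≤ C) (x : L2 ι) (i : ι) :
    (bmult c C hc x) i = (c i : ℂ) * x i := rfl

lemma bmult_finite (c : ι → ℝ) (C : ℝ) (hc : ∀ i, |c i| ≤ C) (s : Finset ι)
    (hs : ∀ i, i ∉ s → c i = 0) : IsCompactOperator (bmult c C hc) := by
  have e : (bmult c C hc : L2 ι → L2 ι) = fun x => ∑ i ∈ s,
      ((lp.singleContinuousLinearMap ℂ (fun _ : ι => ℂ) 2 i).comp
        (((c i : ℂ) • (ContinuousLinearMap.id ℂ ℂ)).comp (lp.evalCLM ℂ (fun _ : ι => ℂ) 2 i))) x := by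
    funext x
    apply lp.ext
    funext j
    rw [bmult_apply, lp.coeFn_sum, Finset.sum_apply]
    simp only [ContinuousLinearMap.comp_apply, lp.singleContinuousLinearMap_apply,
      smul_apply, ContinuousLinearMap.id_apply]
    by_cases hj : j ∈ s
    · rw [Finset.sum_eq_single j]
      · simp
        exact Or.inl rfl
      · intro i _ hij
        rw [lp.single_apply_ne]
        exact hij.symm
      · exact fun h => absurd hj h
    · rw [hs j hj]
      rw [Finset.sum_eq_zero]
      · simp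
      · intro i hi
        rw [lp.single_apply_ne]
        rintro rfl
        exact hj hi
  rw [e]
  classical
  clear e hs
  induction s using Finset.induction_on with
  | empty => simp only [Finset.sum_empty]; exact isCompactOperator_zero
  | insert a s ha ih =>
    simp only [Finset.sum_insert ha]
    refine IsCompactOperator.add ?_ ih
    have h1 : IsCompactOperator (((c a : ℂ) • (ContinuousLinearMap.id ℂ ℂ)).comp
      (lp.evalCLM ℂ (fun _ : ι => ℂ) 2 a) : L2 ι →L[ℂ] ℂ) :=
      isCompactOperator_of_locallyCompactSpace_dom _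
    exact h1.clm_comp (lp.singleContinuousLinearMap ℂ (fun _ : ι => ℂ) 2 a)

omit [DecidableEq ι] in
lemma mult_compactResolvent (a : ι → ℝ) (ha : ∀ i, 0 ≤ a i)
    (hlim : ∀ M : ℝ, {i | a i ≤ M}.Finite) : HasCompactResolvent (mult a) := by
  classical
  have hc : ∀ i, |1 / (a i + 1)| ≤ 1 := by
    intro i
    have := ha i
    rw [abs_of_nonneg (by positivity), div_le_one (by positivity)]
    linarith
  refine ⟨bmult (fun i => 1 / (a i + 1)) 1 hc, ?_, ?_, ?_⟩
  · -- compactness
    let F : ℕ → ι → ℝ := fun N i => if a i ≤ N then 1 / (a i + 1) else 0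
    have hF : ∀ N i, |F N i| ≤ 1 := by
      intro N i
      by_cases h : a i ≤ N
      · simp only [F, h, if_true]; exact hc i
      · simp [F, h]
    have hcomp : ∀ N, IsCompactOperator (bmult (F N) 1 (hF N)) := by
      intro N
      refine bmult_finite _ _ _ (hlim N).toFinset fun i hi => ?_
      simp only [Set.Finite.mem_toFinset, Set.mem_ofPred_eq] at hi
      simp [F, hi]
    refine isCompactOperator_of_tendsto (l := atTop) (F := fun N : ℕ => bmult (F N) 1 (hF N)) ?_
      (Eventually.of_forall hcomp)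
    rw [tendsto_iff_norm_sub_tendsto_zero]
    refine squeeze_zero (fun N => norm_nonneg _) (g := fun N : ℕ => 1 / ((N : ℝ) + 1)) (fun N => ?_)
      tendsto_one_div_add_atTop_nhds_zero_nat
    refine ContinuousLinearMap.opNorm_le_bound _ (by positivity) fun x => ?_
    have hb : ∀ i, |(fun i => F N i - 1 / (a i + 1)) i| ≤ 1 / ((N:ℝ) + 1) := by
      intro i
      have := ha i
      by_cases h : a i ≤ N
      · simp only [F, h, if_true]; simp; positivity
      · simp only [F, h, if_false, zero_sub, abs_neg]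
        rw [abs_of_nonneg (by positivity)]
        apply one_div_le_one_div_of_le (by positivity)
        push Not at h
        linarith
    have e : (bmult (F N) 1 (hF N) - bmult (fun i => 1 / (a i + 1)) 1 hc) x =
        bmult (fun i => F N i - 1 / (a i + 1)) _ hb x := by
      apply lp.ext
      funext i
      rw [bmult_apply]
      show (F N i : ℂ) * x i - ((1 / (a i + 1) : ℝ) : ℂ) * x i = _
      push_cast
      ring
    rw [e]
    have hn : ‖bmult (fun i => F N i - 1 / (a i + 1)) _ hb‖ ≤ 1 / ((N:ℝ) + 1) :=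
      LinearMap.mkContinuous_norm_le _ (by positivity) _
    exact (ContinuousLinearMap.le_opNorm _ x).trans (by gcongr)
  · intro y
    have hmem : bmult (fun i => 1 / (a i + 1)) 1 hc y ∈ (mult a).domain := by
      rw [mem_mult_iff']
      refine Summable.of_nonneg_of_le (fun i => by positivity) (fun i => ?_) (summable_sq y)
      rw [bmult_apply, norm_mul, mul_pow, ← mul_assoc]
      have := ha i
      have h1 : a i ^ 2 * ‖((1 / (a i + 1) : ℝ) : ℂ)‖ ^ 2 ≤ 1 := by
        rw [Complex.norm_real, Real.norm_eq_abs, sq_abs, ← mul_pow]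
        have h2 : a i * (1 / (a i + 1)) ≤ 1 := by
          rw [mul_one_div, div_le_one (by positivity)]; linarith
        have h3 : 0 ≤ a i * (1 / (a i + 1)) := by positivity
        nlinarith
      nlinarith [sq_nonneg ‖y i‖]
    refine ⟨hmem, ?_⟩
    apply lp.ext
    funext i
    show (a i : ℂ) * (bmult (fun i => 1 / (a i + 1)) 1 hc y) i +
      (bmult (fun i => 1 / (a i + 1)) 1 hc y) i = y i
    rw [bmult_apply]
    have h0 : ((a i : ℂ) + 1) ≠ 0 := by
      have := ha i
      exact_mod_cast (by positivity : (a i + 1 : ℝ) ≠ 0)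
    push_cast
    field_simp
  · intro x
    apply lp.ext
    funext i
    rw [bmult_apply]
    show _ * ((a i : ℂ) * (x : L2 ι) i + (x : L2 ι) i) = _
    have h0 : ((a i : ℂ) + 1) ≠ 0 := by
      have := ha i
      exact_mod_cast (by positivity : (a i + 1 : ℝ) ≠ 0)
    push_cast
    field_simp

end mult

section swap

/-- The index set `ℕ × Bool`: two basis vectors for each `n`. -/
abbrev Idx := ℕ × Bool

/-- The involution `(n, b) ↦ (n, !b)`. -/
def flip : Idx ≃ Idx := Equiv.prodCongr (Equiv.refl ℕ) Equiv.boolNot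

@[simp] lemma flip_apply (n : ℕ) (b : Bool) : flip (n, b) = (n, !b) := rfl

@[simp] lemma flip_flip (i : Idx) : flip (flip i) = i := by
  obtain ⟨n, b⟩ := i; simp

/-- The unitary involution exchanging the two basis vectors of each pair. -/
def swapL : L2 Idx →ₗᵢ[ℂ] L2 Idx where
  toFun := fun x => ⟨fun i => x (flip i), by
    show Memℓp (fun i => x (flip i)) 2
    rw [memℓp_two]
    exact (summable_sq x).comp_injective flip.injective⟩
  map_add' := by
    intro x y
    apply Subtype.ext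
    funext i
    show (x + y : L2 Idx) (flip i) = _
    simp
    try rfl
  map_smul' := by
    intro c x
    apply Subtype.ext
    funext i
    show (c • x : L2 Idx) (flip i) = _
    simp
  norm_map' := by
    intro x
    rw [← Real.sqrt_sq (norm_nonneg _), ← Real.sqrt_sq (norm_nonneg x)]
    congr 1
    rw [norm_sq_eq x]
    refine (norm_sq_eq _).trans ?_
    exact flip.tsum_eq (fun i => ‖x i‖ ^ 2)

@[simp] lemma swapL_apply (x : L2 Idx) (i : Idx) : (swapL x) i = x (flip i) := rfl

/-- The orthogonal projection `(P x)(n, b) = (x(n, b) - x(n, !b)) / 2` onto the closed span of the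
vectors `(e_(n,true) - e_(n,false)) / √2`. -/
def P : L2 Idx →L[ℂ] L2 Idx :=
  ((1 / 2 : ℝ) : ℂ) • (ContinuousLinearMap.id ℂ (L2 Idx) - swapL.toContinuousLinearMap)

lemma P_apply (x : L2 Idx) (i : Idx) : (P x) i = (x i - x (flip i)) / 2 := by
  have : (P x) i = ((1 / 2 : ℝ) : ℂ) * (x i - x (flip i)) := rfl
  rw [this]
  push_cast
  ring

lemma P_adjoint : ContinuousLinearMap.adjoint P = P := by
  symm
  rw [ContinuousLinearMap.eq_adjoint_iff]
  intro x y
  have h1 : ⟪swapL x, y⟫_ℂ = ⟪x, swapL y⟫_ℂ := by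
    have : swapL (swapL y) = y := by
      apply lp.ext; funext i; simp
    conv_lhs => rw [← this]
    exact swapL.inner_map_map x (swapL y)
  have hP : ∀ z, P z = ((1 / 2 : ℝ) : ℂ) • (z - swapL z) := fun z => rfl
  rw [hP, hP, inner_smul_left, inner_smul_right, inner_sub_left, inner_sub_right, h1,
    Complex.conj_ofReal]

lemma P_P (x : L2 Idx) : P (P x) = P x := by
  apply lp.ext; funext i
  rw [P_apply, P_apply, P_apply, flip_flip]
  ring

end swap

section observability

lemma sol_coord {ι : Type} [DecidableEq ι] {a : ι → ℝ} {u : ℝ → L2 ι}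
    (hu : IsSchrodingerSol (mult a) u) (i : ι) (t : ℝ) :
    u t i = Complex.exp (-(Complex.I * a i * t)) * u 0 i := by
  have h1 : ∀ t, HasDerivAt (fun s => u s i) (-(Complex.I * a i) * u t i) t := by
    intro t
    have h := hu.2 ⟨lp.single 2 i (1:ℂ), single_mem a i 1⟩ t
    rw [mult_single] at h
    simp only [lp.inner_single_left] at h
    simp at h
    convert h using 1
    ring
  have h2 : ∀ t : ℝ, HasDerivAt (fun s : ℝ => Complex.exp (Complex.I * a i * s) * u s i) 0 t := by
    intro t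
    have he : HasDerivAt (fun s : ℝ => Complex.exp (Complex.I * a i * s))
        (Complex.exp (Complex.I * a i * t) * (Complex.I * a i)) t := by
      have h3 : HasDerivAt (fun s : ℝ => Complex.I * a i * (s : ℂ)) (Complex.I * a i * 1) t :=
        (Complex.ofRealCLM.hasDerivAt (x := t)).const_mul _ |> fun h => by simpa using h
      simpa using h3.cexp
    have h4 := he.mul (h1 t)
    have e : Complex.exp (Complex.I * a i * t) * (Complex.I * a i) * u t i +
        Complex.exp (Complex.I * a i * t) * (-(Complex.I * a i) * u t i) = 0 := by ring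
    rw [e] at h4
    exact h4
  have h3 := is_const_of_deriv_eq_zero (fun t => (h2 t).differentiableAt)
    (fun t => (h2 t).deriv) t 0
  simp only [Complex.ofReal_zero, mul_zero, Complex.exp_zero, one_mul] at h3
  rw [← h3, ← mul_assoc, ← Complex.exp_add]
  simp

lemma block_integral (α : ℝ) (p q : ℂ) :
    ∫ t in (0:ℝ)..Real.pi, ‖Complex.exp (-(Complex.I * ((α + 2 : ℝ) : ℂ) * t)) * p -
      Complex.exp (-(Complex.I * (α : ℂ) * t)) * q‖ ^ 2 / 2 =
      Real.pi / 2 * (‖p‖ ^ 2 + ‖q‖ ^ 2) := by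
  have hpt : ∀ t : ℝ, ‖Complex.exp (-(Complex.I * ((α + 2 : ℝ) : ℂ) * t)) * p -
      Complex.exp (-(Complex.I * (α : ℂ) * t)) * q‖ ^ 2 / 2 =
      (‖p‖ ^ 2 + ‖q‖ ^ 2) / 2 - (Real.cos (2 * t) * (p.re * q.re + p.im * q.im)
        + Real.sin (2 * t) * (p.im * q.re - p.re * q.im)) := by
    intro t
    have e1 : Complex.exp (-(Complex.I * ((α + 2 : ℝ) : ℂ) * t)) * p -
        Complex.exp (-(Complex.I * (α : ℂ) * t)) * q =
        Complex.exp (((-(α * t) : ℝ) : ℂ) * Complex.I) *
          (Complex.exp (((-(2 * t) : ℝ) : ℂ) * Complex.I) * p - q) := by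
      rw [mul_sub, ← mul_assoc, ← Complex.exp_add]
      congr 2
      · congr 1
        push_cast; ring
      · congr 1
        push_cast; ring
    rw [e1, norm_mul, Complex.norm_exp_ofReal_mul_I, one_mul]
    rw [Complex.sq_norm, Complex.sq_norm, Complex.sq_norm, Complex.normSq_apply,
      Complex.normSq_apply, Complex.normSq_apply]
    rw [Complex.exp_mul_I, ← Complex.ofReal_cos, ← Complex.ofReal_sin, Real.cos_neg,
      Real.sin_neg]
    simp only [Complex.sub_re, Complex.sub_im, Complex.mul_re, Complex.mul_im, Complex.add_re,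
      Complex.add_im, Complex.ofReal_re, Complex.ofReal_im, Complex.I_re, Complex.I_im]
    have hcs := Real.sin_sq_add_cos_sq (2 * t)
    linear_combination (1 / 2) * (p.re ^ 2 + p.im ^ 2) * hcs
  simp only [hpt]
  rw [intervalIntegral.integral_eq_sub_of_hasDerivAt
    (f := fun t => (‖p‖ ^ 2 + ‖q‖ ^ 2) / 2 * t -
      (Real.sin (2 * t) / 2 * (p.re * q.re + p.im * q.im)
        - Real.cos (2 * t) / 2 * (p.im * q.re - p.re * q.im)))]
  · simp only [Real.sin_two_pi, Real.cos_two_pi, mul_zero, Real.sin_zero, Real.cos_zero]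
    ring
  · intro t _
    have h2t : HasDerivAt (fun t : ℝ => 2 * t) 2 t := by
      simpa using (hasDerivAt_id t).const_mul (2:ℝ)
    have hs := h2t.sin
    have hcc := h2t.cos
    have h5 := ((hasDerivAt_id t).const_mul ((‖p‖ ^ 2 + ‖q‖ ^ 2) / 2)).sub
      (((hs.div_const 2).mul_const (p.re * q.re + p.im * q.im)).sub
        ((hcc.div_const 2).mul_const (p.im * q.re - p.re * q.im)))
    have e6 : (‖p‖ ^ 2 + ‖q‖ ^ 2) / 2 - (Real.cos (2 * t) * (p.re * q.re + p.im * q.im)
        + Real.sin (2 * t) * (p.im * q.re - p.re * q.im)) =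
      (‖p‖ ^ 2 + ‖q‖ ^ 2) / 2 * 1 -
      (Real.cos (2 * t) * 2 / 2 * (p.re * q.re + p.im * q.im) -
        -Real.sin (2 * t) * 2 / 2 * (p.im * q.re - p.re * q.im)) := by ring
    rw [e6]
    exact h5
  · apply Continuous.intervalIntegrable
    fun_prop

/-- Observability of `mult a` through `P` if `a (n, true) - a (n, false) = 2` for all `n`. -/
lemma observable (a : Idx → ℝ) (ha : ∀ n, a (n, true) = a (n, false) + 2) :
    ObservableInTime (mult a) P Real.pi := by
  refine ⟨2 / Real.pi, by positivity, fun u hu => ?_⟩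
  rw [P_adjoint]
  have hcont : Continuous fun t => ‖P (u t)‖ ^ 2 := (P.continuous.comp hu.1).norm.pow 2
  -- for every finite set of blocks
  have key : ∀ s : Finset ℕ, ∑ n ∈ s, (‖u 0 (n, true)‖ ^ 2 + ‖u 0 (n, false)‖ ^ 2) ≤
      2 / Real.pi * ∫ t in (0:ℝ)..Real.pi, ‖P (u t)‖ ^ 2 := by
    intro s
    let g : ℕ → ℝ → ℝ := fun n t =>
      ‖Complex.exp (-(Complex.I * ((a (n, false) + 2 : ℝ) : ℂ) * t)) * u 0 (n, true) -
      Complex.exp (-(Complex.I * (a (n, false) : ℂ) * t)) * u 0 (n, false)‖ ^ 2 / 2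
    have hg : ∀ n t, ‖u t (n, true) - u t (n, false)‖ ^ 2 / 2 = g n t := by
      intro n t
      have e1 := sol_coord hu (n, true) t
      have e2 := sol_coord hu (n, false) t
      rw [ha n] at e1
      simp only [g]
      rw [← e1, ← e2]
    -- lower bound of the observation
    have hlow : ∀ t, ∑ n ∈ s, g n t ≤ ‖P (u t)‖ ^ 2 := by
      intro t
      rw [norm_sq_eq]
      have h1 := (summable_sq (P (u t))).sum_le_tsum (s ×ˢ (Finset.univ : Finset Bool))
        (fun i _ => by positivity)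
      refine le_trans (le_of_eq ?_) h1
      rw [Finset.sum_product]
      refine Finset.sum_congr rfl fun n _ => ?_
      rw [← hg, Fintype.sum_bool, P_apply, P_apply]
      simp only [flip_apply, Bool.not_true, Bool.not_false]
      rw [norm_div, norm_div, norm_sub_rev (u t (n, false))]
      simp only [Complex.norm_ofNat]
      ring
    have hgc : ∀ n, Continuous (g n) := by
      intro n
      simp only [g]
      fun_prop
    have hint : ∀ n, ∫ t in (0:ℝ)..Real.pi, g n t =
        Real.pi / 2 * (‖u 0 (n, true)‖ ^ 2 + ‖u 0 (n, false)‖ ^ 2) :=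
      fun n => block_integral _ _ _
    have hi : ∀ n ∈ s, IntervalIntegrable (g n) volume 0 Real.pi :=
      fun n _ => (hgc n).intervalIntegrable _ _
    have h2 := intervalIntegral.integral_mono_on (μ := volume) (by positivity : (0:ℝ) ≤ Real.pi)
      (f := fun t => ∑ n ∈ s, g n t)
      (g := fun t => ‖P (u t)‖ ^ 2)
      ((continuous_finsetSum s fun n _ => hgc n).intervalIntegrable _ _)
      (hcont.intervalIntegrable _ _) (fun t _ => hlow t)
    rw [intervalIntegral.integral_finsetSum hi] at h2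
    simp only [hint] at h2
    rw [← Finset.mul_sum] at h2
    have hpi := Real.pi_pos
    calc ∑ n ∈ s, (‖u 0 (n, true)‖ ^ 2 + ‖u 0 (n, false)‖ ^ 2)
        = 2 / Real.pi * (Real.pi / 2 * ∑ n ∈ s, (‖u 0 (n, true)‖ ^ 2 + ‖u 0 (n, false)‖ ^ 2)) := by
          field_simp
      _ ≤ _ := by gcongr
  rw [norm_sq_eq]
  refine (summable_sq (u 0)).tsum_le_of_sum_le fun s => ?_
  classical
  refine le_trans ?_ (key (s.image Prod.fst))
  have : ∑ n ∈ s.image Prod.fst, (‖u 0 (n, true)‖ ^ 2 + ‖u 0 (n, false)‖ ^ 2) =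
      ∑ i ∈ (s.image Prod.fst) ×ˢ (Finset.univ : Finset Bool), ‖u 0 i‖ ^ 2 := by
    rw [Finset.sum_product]
    refine Finset.sum_congr rfl fun n _ => ?_
    rw [Fintype.sum_bool]
  rw [this]
  refine Finset.sum_le_sum_of_subset_of_nonneg (fun i hi => ?_) (fun i _ _ => by positivity)
  simp only [Finset.mem_product, Finset.mem_image, Finset.mem_univ, and_true]
  exact ⟨i, hi, rfl⟩

end observability

section example_

/-- decay rates -/
def r (n : ℕ) : ℝ := 1 / ((n : ℝ) + 16)

/-- squares of the imaginary parts of the eigenvalues -/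
def W (n : ℕ) : ℝ := 1 / (2 * r n * (1 - 2 * r n)) - (r n) ^ 2 / (1 - 4 * r n) ^ 2

/-- centres of the pairs of eigenvalues of `A` -/
def N (n : ℕ) : ℝ := W n - (r n) ^ 2 - 2 * (r n) ^ 2 / (1 - 4 * r n)

/-- the eigenvalues of `A`: `N n + 1` and `N n - 1` -/
def a : Idx → ℝ
  | (n, true) => N n + 1
  | (n, false) => N n - 1

lemma r_pos (n : ℕ) : 0 < r n := by unfold r; positivity

lemma r_le (n : ℕ) : r n ≤ 1 / 16 := by
  unfold r
  apply one_div_le_one_div_of_le (by norm_num)
  have : (0:ℝ) ≤ n := Nat.cast_nonneg n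
  linarith

lemma r_inv (n : ℕ) : 1 / r n = (n : ℝ) + 16 := by unfold r; rw [one_div_one_div]

lemma W_lower (n : ℕ) : ((n : ℝ) + 16) / 2 - 1 ≤ W n := by
  have h0 := r_pos n
  have h1 := r_le n
  have h2 : (r n) ^ 2 / (1 - 4 * r n) ^ 2 ≤ 1 := by
    rw [div_le_one (by nlinarith)]
    nlinarith
  have h3 : ((n : ℝ) + 16) / 2 ≤ 1 / (2 * r n * (1 - 2 * r n)) := by
    rw [← r_inv, div_div, div_le_div_iff₀ (by positivity) (by nlinarith)]
    nlinarith
  unfold W
  linarith

lemma W_upper (n : ℕ) : W n ≤ 4 / 7 * ((n : ℝ) + 16) := by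
  have h0 := r_pos n
  have h1 := r_le n
  have h2 : 0 ≤ (r n) ^ 2 / (1 - 4 * r n) ^ 2 := by positivity
  have h3 : 1 / (2 * r n * (1 - 2 * r n)) ≤ 4 / 7 * ((n : ℝ) + 16) := by
    rw [← r_inv, ← mul_div_assoc, mul_one, div_le_div_iff₀ (by nlinarith) (by positivity)]
    nlinarith
  unfold W
  linarith

lemma W_pos (n : ℕ) : 7 ≤ W n := by
  have := W_lower n
  have h : (0:ℝ) ≤ n := Nat.cast_nonneg n
  linarith

lemma small_term (n : ℕ) : 0 ≤ (r n) ^ 2 + 2 * (r n) ^ 2 / (1 - 4 * r n) ∧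
    (r n) ^ 2 + 2 * (r n) ^ 2 / (1 - 4 * r n) ≤ 1 := by
  have h0 := r_pos n
  have h1 := r_le n
  have h4 : 0 < 1 - 4 * r n := by linarith
  constructor
  · positivity
  · have : 2 * (r n) ^ 2 / (1 - 4 * r n) ≤ 1 / 2 := by
      rw [div_le_div_iff₀ h4 (by norm_num)]
      nlinarith
    nlinarith

lemma N_le_W (n : ℕ) : N n ≤ W n := by
  have := small_term n
  unfold N; linarith [this.1]

lemma W_le_N (n : ℕ) : W n ≤ N n + 1 := by
  have := small_term n
  unfold N; linarith [this.2]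

lemma a_nonneg (i : Idx) : 0 ≤ a i := by
  obtain ⟨n, b⟩ := i
  have := W_le_N n
  have := W_pos n
  cases b <;> simp only [a] <;> linarith

lemma a_ge (i : Idx) : ((i.1 : ℝ) + 16) / 2 - 3 ≤ a i := by
  obtain ⟨n, b⟩ := i
  have := W_le_N n
  have := W_lower n
  cases b <;> simp only [a] <;> linarith

lemma a_finite (M : ℝ) : {i : Idx | a i ≤ M}.Finite := by
  have : {i : Idx | a i ≤ M} ⊆ (Set.Iic ⌈2 * M⌉₊) ×ˢ (Set.univ : Set Bool) := by
    rintro ⟨n, b⟩ h
    have h1 := a_ge (n, b)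
    simp only [Set.mem_ofPred_eq] at h
    simp only [Set.mem_prod, Set.mem_Iic, Set.mem_univ, and_true]
    have h2 : (n : ℝ) ≤ 2 * M := by simp only at h1; linarith
    exact_mod_cast h2.trans (Nat.le_ceil _)
  exact ((Set.finite_Iic _).prod Set.finite_univ).subset this

/-- the eigenvalues of the damped wave operator -/
def μ (n : ℕ) : ℂ := ⟨-r n, √(W n)⟩

/-- `z = N + μ²` -/
def z (n : ℕ) : ℂ := (N n : ℂ) + μ n ^ 2

lemma z_eq (n : ℕ) : z n = ⟨-(2 * (r n) ^ 2 / (1 - 4 * r n)), -(2 * r n * √(W n))⟩ := by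
  have hW : √(W n) * √(W n) = W n := Real.mul_self_sqrt (by linarith [W_pos n])
  apply Complex.ext
  · simp only [z, μ, sq, Complex.add_re, Complex.mul_re, Complex.ofReal_re, hW]
    unfold N
    ring
  · simp only [z, μ, sq, Complex.add_im, Complex.mul_im, Complex.ofReal_im]
    ring

lemma z_mul (n : ℕ) : z n * (z n + μ n) = 1 := by
  have hW : √(W n) * √(W n) = W n := Real.mul_self_sqrt (by linarith [W_pos n])
  have h0 := r_pos n
  have h1 := r_le n
  have h4 : 1 - 4 * r n ≠ 0 := by linarith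
  have h2 : 2 * r n * (1 - 2 * r n) ≠ 0 := by
    have : 0 < 1 - 2 * r n := by linarith
    positivity
  obtain ⟨k, hk⟩ : ∃ k, k = r n / (1 - 4 * r n) := ⟨_, rfl⟩
  have hk1 : k * (1 - 4 * r n) = r n := by rw [hk, div_mul_cancel₀ _ h4]
  have hs : 2 * (r n) ^ 2 / (1 - 4 * r n) = 2 * r n * k := by rw [hk]; ring
  have hW2 : 2 * r n * (1 - 2 * r n) * W n = 1 - 2 * r n * (1 - 2 * r n) * k ^ 2 := by
    have e : W n = 1 / (2 * r n * (1 - 2 * r n)) - k ^ 2 := by
      rw [hk, div_pow]; rfl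
    rw [e, mul_sub, mul_one_div, div_self h2]
  rw [z_eq, hs]
  apply Complex.ext
  · simp only [μ, Complex.mul_re, Complex.add_re, Complex.add_im, Complex.one_re]
    linear_combination (2 * r n * (1 - 2 * r n)) * hW + hW2 - 2 * r n * k * hk1
  · simp only [μ, Complex.mul_im, Complex.add_re, Complex.add_im, Complex.one_im]
    linear_combination (-(2 * r n * √(W n))) * hk1

lemma normSq_μ (n : ℕ) : ‖μ n‖ ^ 2 = (r n) ^ 2 + W n := by
  have hW : √(W n) * √(W n) = W n := Real.mul_self_sqrt (by linarith [W_pos n])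
  rw [Complex.sq_norm, Complex.normSq_apply]
  simp only [μ, hW]
  ring

/-- the eigenvectors -/
def ψ (n : ℕ) : L2 Idx :=
  lp.single 2 (n, true) (μ n / 2) + lp.single 2 (n, false) (z n + 1 + μ n / 2)

lemma ψ_true (n : ℕ) : ψ n (n, true) = μ n / 2 := by
  simp [ψ]

lemma ψ_false (n : ℕ) : ψ n (n, false) = z n + 1 + μ n / 2 := by
  simp [ψ]

lemma ψ_other (n : ℕ) (i : Idx) (h : i.1 ≠ n) : ψ n i = 0 := by
  have h1 : i ≠ (n, true) := fun e => h (by rw [e])
  have h2 : i ≠ (n, false) := fun e => h (by rw [e])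
  simp [ψ, h1, h2]

lemma ψ_mem (b : Idx → ℝ) (n : ℕ) : ψ n ∈ (mult b).domain :=
  Submodule.add_mem _ (single_mem _ _ _) (single_mem _ _ _)

lemma eigen (n : ℕ) :
    mult a ⟨ψ n, ψ_mem a n⟩ = -(μ n ^ 2) • ψ n - μ n • P (ψ n) := by
  apply lp.ext
  funext i
  have e : (-(μ n ^ 2) • ψ n - μ n • P (ψ n) : L2 Idx) i =
      -(μ n ^ 2) * ψ n i - μ n * (P (ψ n)) i := rfl
  rw [e, mult_apply, P_apply]
  by_cases h : i.1 = n
  · obtain ⟨m, b⟩ := i
    simp only at h
    subst h
    have hz := z_mul m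
    have hN : (N m : ℂ) = z m - μ m ^ 2 := by unfold z; ring
    cases b
    · simp only [flip_apply, Bool.not_false, a]
      rw [ψ_true, ψ_false]
      push_cast
      rw [hN]
      linear_combination hz
    · simp only [flip_apply, Bool.not_true, a]
      rw [ψ_true, ψ_false]
      push_cast
      rw [hN]
      ring
  · have h' : (flip i).1 ≠ n := by
      obtain ⟨m, b⟩ := i
      exact h
    rw [ψ_other n i h, ψ_other n _ h']
    simp

/-- `A^(1/2)` -/
def S : L2 Idx →ₗ.[ℂ] L2 Idx := mult fun i => √(a i)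

lemma ψ_ne (n : ℕ) : 0 < ‖ψ n‖ := by
  rw [norm_pos_iff]
  intro h
  have h1 := ψ_true n
  rw [h] at h1
  have h2 : μ n ≠ 0 := by
    intro h3
    have := congrArg Complex.re h3
    simp only [μ, Complex.zero_re] at this
    have := r_pos n
    linarith
  have h3 : (0 : ℂ) = μ n / 2 := h1
  apply h2
  linear_combination (-2 : ℂ) * h3

lemma val_smul {T : L2 Idx →ₗ.[ℂ] L2 Idx} {x : L2 Idx} (h : x ∈ T.domain) (c : ℂ) :
    val T (c • x) = c • val T x := by
  rw [val_of_mem h, val_of_mem (T.domain.smul_mem c h), ← LinearPMap.map_smul]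
  rfl

/-- the solution -/
def usol (n : ℕ) (t : ℝ) : L2 Idx := Complex.exp (μ n * t) • ψ n

/-- its time derivative -/
def vsol (n : ℕ) (t : ℝ) : L2 Idx := (μ n * Complex.exp (μ n * t)) • ψ n

lemma hasDerivAt_exp (c : ℂ) (t : ℝ) :
    HasDerivAt (fun s : ℝ => Complex.exp (c * s)) (c * Complex.exp (c * t)) t := by
  have h3 : HasDerivAt (fun s : ℝ => c * (s : ℂ)) (c * 1) t :=
    (Complex.ofRealCLM.hasDerivAt (x := t)).const_mul _ |> fun h => by simpa using h
  have := h3.cexp
  convert this using 1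
  ring

lemma damping_eq (n : ℕ) (c : ℂ) :
    -val (mult a) (c • ψ n) - P ((ContinuousLinearMap.adjoint P) ((μ n * c) • ψ n)) =
      (μ n ^ 2 * c) • ψ n := by
  rw [P_adjoint, P_P, val_smul (ψ_mem a n), val_of_mem (ψ_mem a n), eigen, map_smul]
  module

lemma isSol (n : ℕ) : IsClassicalSol (mult a) S P (usol n) (vsol n) where
  mem t _ := ⟨Submodule.smul_mem _ _ (ψ_mem _ n), Submodule.smul_mem _ _ (ψ_mem _ n),
    Submodule.smul_mem _ _ (ψ_mem _ n)⟩
  deriv_u t _ := by
    have := (hasDerivAt_exp (μ n) t).smul_const (ψ n)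
    exact this.hasDerivWithinAt
  deriv_Su t _ := by
    have h := (hasDerivAt_exp (μ n) t).smul_const (val S (ψ n))
    have e : (fun s => val S (usol n s)) = fun s : ℝ => Complex.exp (μ n * s) • val S (ψ n) := by
      funext s
      exact val_smul (ψ_mem _ n) _
    have e2 : val S (vsol n t) = (μ n * Complex.exp (μ n * t)) • val S (ψ n) :=
      val_smul (ψ_mem _ n) _
    rw [e, e2]
    exact h.hasDerivWithinAt
  deriv_v t _ := by
    have h := ((hasDerivAt_exp (μ n) t).const_mul (μ n)).smul_const (ψ n)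
    have e : -val (mult a) (usol n t) - P ((ContinuousLinearMap.adjoint P) (vsol n t)) =
        (μ n * (μ n * Complex.exp (μ n * t))) • ψ n := by
      unfold usol vsol
      rw [damping_eq]
      congr 1
      ring
    rw [e]
    exact h.hasDerivWithinAt
  cont_Sv := by
    have e : (fun s => val S (vsol n s)) =
        fun s : ℝ => (μ n * Complex.exp (μ n * s)) • val S (ψ n) := by
      funext s
      exact val_smul (ψ_mem _ n) _
    rw [e]
    apply Continuous.continuousOn
    fun_prop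
  cont_Au := by
    have e : (fun s => val (mult a) (usol n s)) =
        fun s : ℝ => (Complex.exp (μ n * s)) • val (mult a) (ψ n) := by
      funext s
      exact val_smul (ψ_mem _ n) _
    rw [e]
    apply Continuous.continuousOn
    fun_prop

lemma norm_S_ψ (n : ℕ) : ‖val S (ψ n)‖ ^ 2 ≤ (N n + 1) * ‖ψ n‖ ^ 2 := by
  have hmem : ψ n ∈ S.domain := ψ_mem _ n
  rw [val_of_mem hmem, norm_sq_eq, norm_sq_eq, ← tsum_mul_left]
  refine Summable.tsum_le_tsum (fun i => ?_) (summable_sq _) ((summable_sq _).mul_left _)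
  have e : (S ⟨ψ n, hmem⟩) i = ((√(a i) : ℝ) : ℂ) * ψ n i := rfl
  rw [e]
  by_cases h : i.1 = n
  · rw [norm_mul, mul_pow]
    have h1 : ‖((√(a i) : ℝ) : ℂ)‖ ^ 2 = a i := by
      rw [Complex.norm_real, Real.norm_eq_abs, sq_abs, Real.sq_sqrt (a_nonneg i)]
    rw [h1]
    have h2 : a i ≤ N n + 1 := by
      obtain ⟨m, b⟩ := i
      simp only at h
      subst h
      cases b <;> simp only [a] <;> linarith
    gcongr
  · rw [ψ_other n i h]
    simp

lemma graph_bound (n : ℕ) : graphNormSq (mult a) S P (usol n 0) (vsol n 0) ≤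
    (3 * ‖μ n‖ ^ 2 * ‖ψ n‖) ^ 2 := by
  have e1 : usol n 0 = ψ n := by simp [usol]
  have e2 : vsol n 0 = μ n • ψ n := by simp [vsol]
  have e3 : -val (mult a) (ψ n) - P ((ContinuousLinearMap.adjoint P) (μ n • ψ n)) =
      (μ n ^ 2) • ψ n := by
    have := damping_eq n 1
    simpa using this
  rw [e1, e2]
  unfold graphNormSq normSq
  rw [e3, val_smul (T := S) (ψ_mem _ n), norm_smul, norm_smul, norm_smul, norm_pow]
  have h1 := norm_S_ψ n
  have h2 := normSq_μ n
  have h3 := W_pos n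
  have h4 := N_le_W n
  set M := ‖μ n‖ ^ 2 with hM
  have hM1 : 7 ≤ M := by nlinarith [sq_nonneg (r n)]
  have hNM : N n + 1 ≤ M + 1 := by nlinarith [sq_nonneg (r n)]
  have h5 : ‖val S (ψ n)‖ ^ 2 ≤ (M + 1) * ‖ψ n‖ ^ 2 :=
    h1.trans (by gcongr)
  have h6 : 0 ≤ ‖ψ n‖ ^ 2 := sq_nonneg _
  calc ‖val S (ψ n)‖ ^ 2 + ‖ψ n‖ ^ 2 + (‖μ n‖ * ‖ψ n‖) ^ 2 +
        ((‖μ n‖ * ‖val S (ψ n)‖) ^ 2 + (‖μ n‖ * ‖ψ n‖) ^ 2 + (M * ‖ψ n‖) ^ 2)
      = (1 + M) * (‖val S (ψ n)‖ ^ 2 + ‖ψ n‖ ^ 2 + M * ‖ψ n‖ ^ 2) := by rw [hM]; ring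
    _ ≤ (1 + M) * ((M + 1) * ‖ψ n‖ ^ 2 + ‖ψ n‖ ^ 2 + M * ‖ψ n‖ ^ 2) := by gcongr
    _ = (1 + M) * (2 * M + 2) * ‖ψ n‖ ^ 2 := by ring
    _ ≤ 9 * M ^ 2 * ‖ψ n‖ ^ 2 := mul_le_mul_of_nonneg_right (by nlinarith) h6
    _ = _ := by ring

lemma μ_le (n : ℕ) : ‖μ n‖ ≤ √((n : ℝ) + 16) := by
  apply Real.le_sqrt_of_sq_le
  rw [normSq_μ]
  have h1 := W_upper n
  have h2 := r_le n
  have h3 := r_pos n
  have h : (0:ℝ) ≤ n := Nat.cast_nonneg n
  nlinarith

lemma not_stable (f : ℝ → ℝ) (hf : Tendsto (fun t => √t * f t) atTop (𝓝 0)) :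
    ¬ StableAtRate (mult a) S P f := by
  rintro ⟨C, hC, h⟩
  have key : ∀ n : ℕ, Real.exp (-1) ≤ 3 * C * |√((n : ℝ) + 16) * f ((n : ℝ) + 16)| := by
    intro n
    set t : ℝ := (n : ℝ) + 16 with ht
    have htpos : 0 < t := by positivity
    have h1 := h (usol n) (vsol n) (isSol n) t htpos
    have hμ : 0 < ‖μ n‖ := by
      rw [norm_pos_iff]
      intro h3
      have := congrArg Complex.re h3
      simp only [μ, Complex.zero_re] at this
      have := r_pos n
      linarith
    have h2 : ‖vsol n t‖ = ‖μ n‖ * Real.exp (-1) * ‖ψ n‖ := by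
      unfold vsol
      rw [norm_smul, norm_mul, Complex.norm_exp]
      congr 3
      simp only [μ, Complex.mul_re, Complex.ofReal_re, Complex.ofReal_im, mul_zero, sub_zero]
      rw [ht, ← r_inv n]
      have := (r_pos n).ne'
      field_simp
    have h3 : ‖vsol n t‖ ≤ √(‖val S (usol n t)‖ ^ 2 + ‖vsol n t‖ ^ 2) := by
      apply Real.le_sqrt_of_sq_le
      have := sq_nonneg ‖val S (usol n t)‖
      linarith
    have h4 : √(graphNormSq (mult a) S P (usol n 0) (vsol n 0)) ≤ 3 * ‖μ n‖ ^ 2 * ‖ψ n‖ := by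
      rw [← Real.sqrt_sq (by positivity : 0 ≤ 3 * ‖μ n‖ ^ 2 * ‖ψ n‖)]
      exact Real.sqrt_le_sqrt (graph_bound n)
    have h5 : C * f t * √(graphNormSq (mult a) S P (usol n 0) (vsol n 0)) ≤
        C * |f t| * (3 * ‖μ n‖ ^ 2 * ‖ψ n‖) := by
      have : C * f t ≤ C * |f t| := by gcongr; exact le_abs_self _
      calc _ ≤ C * |f t| * √(graphNormSq (mult a) S P (usol n 0) (vsol n 0)) := by gcongr
        _ ≤ _ := by gcongr
    have h6 : ‖μ n‖ * Real.exp (-1) * ‖ψ n‖ ≤ C * |f t| * (3 * ‖μ n‖ ^ 2 * ‖ψ n‖) := by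
      rw [← h2]
      exact (h3.trans h1).trans h5
    have hψ := ψ_ne n
    have h7 : Real.exp (-1) ≤ 3 * C * (‖μ n‖ * |f t|) := by
      have h8 : (‖μ n‖ * ‖ψ n‖) * Real.exp (-1) ≤ (‖μ n‖ * ‖ψ n‖) * (3 * C * (‖μ n‖ * |f t|)) := by
        calc (‖μ n‖ * ‖ψ n‖) * Real.exp (-1) = ‖μ n‖ * Real.exp (-1) * ‖ψ n‖ := by ring
          _ ≤ C * |f t| * (3 * ‖μ n‖ ^ 2 * ‖ψ n‖) := h6
          _ = _ := by ring
      exact le_of_mul_le_mul_left h8 (by positivity)
    have h9 := μ_le n
    rw [abs_mul, abs_of_nonneg (Real.sqrt_nonneg _)]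
    refine h7.trans ?_
    gcongr
  have hlim : Tendsto (fun n : ℕ => 3 * C * |√((n : ℝ) + 16) * f ((n : ℝ) + 16)|) atTop (𝓝 0) := by
    have h1 : Tendsto (fun n : ℕ => (n : ℝ) + 16) atTop atTop :=
      tendsto_atTop_add_const_right _ _ tendsto_natCast_atTop_atTop
    have h2 := (hf.comp h1).abs.const_mul (3 * C)
    simpa using h2
  have := ge_of_tendsto' hlim key
  have hpos := Real.exp_pos (-1)
  linarith

end example_

/-- **The rate `t^(-1/2)` is optimal in the abstract setting.** There are Hilbert spaces `H`, `Y`, a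
nonnegative self-adjoint operator `A` with compact resolvent on `H`, with square root
`S = A^(1/2)`, and a bounded operator `B : Y → H` such that the Schrodinger system `∂ₜu + iAu = 0`,
`y = B* u` is observable in some time `T > 0`, but the damped wave system
`∂ₜ²u + Au + BB*∂ₜu = 0` is not stable at rate `t^(-α)` for any `α > 1/2`, and more generally it is
not stable at any rate `f` with `√t f(t) → 0` as `t → ∞`. -/
theorem result : ∃ (H Y : Type) (_ : NormedAddCommGroup H) (_ : InnerProductSpace ℂ H)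
    (_ : CompleteSpace H) (_ : NormedAddCommGroup Y) (_ : InnerProductSpace ℂ Y)
    (_ : CompleteSpace Y) (A S : H →ₗ.[ℂ] H) (B : Y →L[ℂ] H),
    IsSelfAdjoint A ∧ IsNonneg A ∧ HasCompactResolvent A ∧ IsSqrt S A ∧
    (∃ T > 0, ObservableInTime A B T) ∧
    (∀ α : ℝ, 1 / 2 < α → ¬ StableAtRate A S B (fun t => t ^ (-α))) ∧
    ∀ f : ℝ → ℝ, Tendsto (fun t => √t * f t) atTop (𝓝 0) → ¬ StableAtRate A S B f := by
  refine ⟨L2 Idx, L2 Idx, inferInstance, inferInstance, inferInstance, inferInstance,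
    inferInstance, inferInstance, mult a, S, P, mult_selfAdjoint a, mult_nonneg a a_nonneg,
    mult_compactResolvent a a_nonneg a_finite, ⟨mult_selfAdjoint _,
      mult_nonneg _ fun i => Real.sqrt_nonneg _, mult_isSqrt_sq a a_nonneg⟩,
    ⟨Real.pi, Real.pi_pos, observable a fun n => by simp only [a]; ring⟩, ?_, not_stable⟩
  intro α hα
  apply not_stable
  have h1 : Tendsto (fun t : ℝ => t ^ (-(α - 1 / 2))) atTop (𝓝 0) :=
    tendsto_rpow_neg_atTop (by linarith)
  refine h1.congr' ?_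
  filter_upwards [eventually_gt_atTop 0] with t ht
  rw [Real.sqrt_eq_rpow, ← Real.rpow_add ht]
  congr 1
  ring

end

end Pool.Agent.Results.MP_4ccfbf_an.HalfRateOptimal
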